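import Mathlib
import Pool.Agent.Results.MP_e7ecf3_lc.StrongHypNotZ
import Pool.Agent.Y469.SH.Loc
import Pool.Agent.Y469.SH.Fin

set_option autoImplicit false

/-!
# MP_e7ecf3_lc: strong hyperfiniteness and orbit equivalence to the integers for locally finite
groups

`StronglyHyperfinite` and `AllOrbitEquivalentToZ` are those of the starting result
(`AllOrbitEquivalentToZ Γ`: every orbit equivalence relation of a free continuous action of `Γ` on
a compact zero-dimensional Polish space is topologically orbit equivalent to an action of `ℤ`);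
`LocFin Γ`: every finite subset of `Γ` generates a finite subgroup.
-/

namespace Pool.Agent.Results.MP_e7ecf3_lc.LocallyFiniteGroups

open Pool.Agent.Y469.SH
open Pool.Agent.Results.MP_e7ecf3_lc.StrongHypNotZ

/-- **Main theorem.** Every countable locally finite group is strongly hyperfinite (Q1 for this
class). For a countable locally finite group all orbit equivalence relations of its free
continuous actions on compact zero-dimensional Polish spaces are topologically orbit equivalent to
actions of `ℤ` if and only if the group is finite. So for countable locally finite groups the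
equivalence of Q2 holds exactly for the finite ones: each infinite countable locally finite group
(and there is one) is a counterexample to Q2. -/
theorem result :
    (∀ (Γ : Type) [Group Γ] [Countable Γ], LocFin Γ →
      StronglyHyperfinite Γ ∧ (AllOrbitEquivalentToZ Γ ↔ Finite Γ) ∧
        ((StronglyHyperfinite Γ ↔ AllOrbitEquivalentToZ Γ) ↔ Finite Γ)) ∧
    (∀ (Γ : Type) [Group Γ] [Countable Γ] [Infinite Γ], LocFin Γ →
      StronglyHyperfinite Γ ∧ ¬ AllOrbitEquivalentToZ Γ) ∧
    ∃ (Γ : Type) (_ : Group Γ) (_ : Countable Γ), Infinite Γ ∧ LocFin Γ := by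
  have main : ∀ (Γ : Type) [Group Γ] [Countable Γ], LocFin Γ →
      StronglyHyperfinite Γ ∧ (AllOrbitEquivalentToZ Γ ↔ Finite Γ) := by
    intro Γ _ _ hΓ
    refine ⟨stronglyHyperfinite hΓ, fun h => ?_, fun h => all_of_finite Γ⟩
    by_contra hinf
    have : Infinite Γ := not_finite_iff_infinite.1 hinf
    exact not_all hΓ h
  refine ⟨fun Γ _ _ hΓ => ?_, fun Γ _ _ _ hΓ => ⟨stronglyHyperfinite hΓ, not_all hΓ⟩, ?_⟩
  · obtain ⟨h1, h2⟩ := main Γ hΓ
    refine ⟨h1, h2, ?_⟩
    rw [← h2]
    exact ⟨fun h => h.1 h1, fun h => ⟨fun _ => h, fun _ => h1⟩⟩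
  · refine ⟨G, inferInstance, inferInstance, inferInstanceAs (Infinite (ℕ →₀ ZMod 2)), ?_⟩
    intro S hS
    have hN : ∃ N, S ⊆ chain N := by
      induction S, hS using Set.Finite.induction_on with
      | empty => exact ⟨0, Set.empty_subset _⟩
      | insert _ _ ih =>
        obtain ⟨N, hN⟩ := ih
        rename_i a S _ _
        obtain ⟨M, hM⟩ := chain_exhaust a
        refine ⟨max M N, Set.insert_subset ?_ (hN.trans ?_)⟩
        · exact chain_strictMono.monotone (le_max_left _ _) hM
        · exact chain_strictMono.monotone (le_max_right _ _)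
    obtain ⟨N, hN⟩ := hN
    have hfin := chain_finite N
    exact (Set.toFinite (chain N : Set G)).subset ((Subgroup.closure_le _).2 hN)

end Pool.Agent.Results.MP_e7ecf3_lc.LocallyFiniteGroups
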